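import Pool.Agent.H.MP_f64102_gt.K

namespace Pool.Agent.Results.MP_f64102_gt.No
open Pool.Agent.H.MP_f64102_gt
open scoped Matrix.Norms.Elementwise

theorem result :
    ∃ S : Set (MvPolynomial ((Fin 3 ⊕ Fin 3) × (Fin 3 ⊕ Fin 3)) ℚ), ConnRed S ∧
      ∃ Ω : Set (Fin 2 × Fin 2 → Matrix (Fin 3 ⊕ Fin 3) (Fin 3 ⊕ Fin 3) ℝ),
        ZOpen (Hom 2 (pts S ℝ)) Ω ∧ Ω.Nonempty ∧
        (∀ h ∈ pts S ℝ, ∀ ρ ∈ Ω, conj h ρ ∈ Ω ∧ (conj h ρ = ρ → h = 1)) ∧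
        GlobalChart (EuclideanSpace ℝ (Fin 12)) Ω (fun x y => ∃ h ∈ pts S ℝ, y.1 = conj h x.1) ∧
        ∀ ρ ∈ Ω, ¬ ∃ h ∈ pts S ℝ, ∀ i, ∃ A ∈ pts S ℚ,
          conj h ρ i = A.map fun x : ℚ => (x : ℝ) := by
  have hθ : √2 * √2 = (2 : ℝ) := Real.mul_self_sqrt (by norm_num)
  refine ⟨SS, connRed, Omg √2, zopen hθ, Omg_nonempty, fun h hh ρ hρ => invar hθ hh hρ, chart hθ,
    ?_⟩
  rintro ρ hρ ⟨h, hh, k⟩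
  choose M _ hM using k
  exact not_rat hθ irrational_sqrt_two (invar hθ hh hρ).1 M hM

end Pool.Agent.Results.MP_f64102_gt.No
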